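import Pool.Agent.W758.AHC.Stm

/-! # Subtask AHC-FIN: the final count -/

set_option autoImplicit false

namespace Pool.Agent.W494.AHC

open Pool.Agent.W758.AHC Finset

theorem conv (j p : ℕ) (h : j ≤ p) : p * 2 ^ j + j ≤ j * 2 ^ p + p := by
  induction p, h using Nat.le_induction with
  | base => omega
  | succ p hp ih =>
    have h1 : 2 ^ j ≤ j * 2 ^ p + 1 := by
      rcases Nat.eq_zero_or_pos j with hj | hj
      · subst hj; simp
      · have h2 : 2 ^ j ≤ 2 ^ p := Nat.pow_le_pow_right (by norm_num) hp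
        have h4 : 2 ^ p ≤ j * 2 ^ p := Nat.le_mul_of_pos_left _ hj
        omega
    have h3 : j * 2 ^ (p + 1) = j * 2 ^ p + j * 2 ^ p := by ring
    have h4 : (p + 1) * 2 ^ j = p * 2 ^ j + 2 ^ j := by ring
    rw [h3, h4]
    omega

theorem final_num (x s p a N y M : ℕ) (ha : 1 ≤ a) (hx : x ≤ s) (hs : p * s + N ≤ N * a + p * y)
    (hN : 3 * N ≤ p * (2 * M)) (hy : y ≤ M) (hp : 0 < p) : 3 * x ≤ M * (2 * a + 1) := by
  have h1 : p * (3 * x) ≤ p * (M * (2 * a + 1)) := by
    obtain ⟨b, rfl⟩ : ∃ b, a = b + 1 := ⟨a - 1, by omega⟩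
    have h2 : p * x ≤ p * s := Nat.mul_le_mul_left _ hx
    have h3 : p * y ≤ p * M := Nat.mul_le_mul_left _ hy
    have h4 : 3 * N * b ≤ p * (2 * M) * b := Nat.mul_le_mul_right _ hN
    have h5 : N * (b + 1) = N * b + N := by ring
    rw [h5] at hs
    have h6 : p * s ≤ N * b + p * y := by omega
    calc p * (3 * x) = 3 * (p * x) := by ring
      _ ≤ 3 * (N * b + p * y) := by omega
      _ = 3 * N * b + 3 * (p * y) := by ring
      _ ≤ p * (2 * M) * b + 3 * (p * M) := by omega
      _ = p * (M * (2 * (b + 1) + 1)) := by ring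
  exact Nat.le_of_mul_le_mul_left h1 hp

theorem fin : S_FIN := by
  classical
  intro ι κ _ _ σ C M hInv hN hk X hX
  obtain ⟨hTC, hCS, hM, hM2⟩ := hInv
  obtain ⟨P, hP⟩ : ∃ P, P = σ.S \ C := ⟨_, rfl⟩
  rw [← hP] at hk ⊢
  choose kf hkK hkN hk1 hk2 using hk
  set Free : ι → Finset ι → Prop := fun i y => ∃ h : i ∈ P,
    (σ.f (kf i h) y = 0 ∧ σ.c i (kf i h) = 1) ∨ (σ.f (kf i h) y = 1 ∧ σ.c i (kf i h) = -1)
    with hFree
  set Fr : Finset ι → Finset ι := fun y => P.filter (fun i => Free i y) with hFr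
  set Y := X.image (fun x => x ∩ C) with hY
  -- basic facts
  have hN' : ∀ k ∈ σ.K, ∀ i j, i ∈ σ.S → i ∉ C → σ.c i k ≠ 0 → j ∈ σ.S → j ∉ C → σ.c j k ≠ 0 →
      i = j := by
    intro k hk i j hi hiC hci hj hjC hcj
    have h := Finset.card_le_one.1 (hN k hk)
    refine h i ?_ j ?_
    · rw [mem_sdiff]; exact ⟨mem_filter.2 ⟨hi, hci⟩, hiC⟩
    · rw [mem_sdiff]; exact ⟨mem_filter.2 ⟨hj, hcj⟩, hjC⟩
  have hcne : ∀ i (h : i ∈ P), σ.c i (kf i h) ≠ 0 := fun i h => (mem_filter.1 (hkN i h)).2
  have hYgood : σ.Good C Y := by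
    intro y hy
    obtain ⟨x, hx, rfl⟩ := mem_image.1 hy
    obtain ⟨hxS, hxv, hxk⟩ := hX x hx
    refine ⟨inter_subset_right, ?_, ?_⟩
    · rw [← hxv]
      refine sum_subset inter_subset_left fun i hi hni => ?_
      have hiC : i ∉ C := fun h => hni (mem_inter.2 ⟨hi, h⟩)
      by_contra hv
      exact hiC (hTC (mem_filter.2 ⟨hxS hi, hv⟩))
    · intro k hkK' hNC
      have h1 := hxk k hkK' (filter_subset _ _)
      have h2 : σ.f k (x ∩ C) = σ.f k x := by
        unfold Sys.f
        congr 1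
        refine sum_subset inter_subset_left fun i hi hni => ?_
        have hiC : i ∉ C := fun h => hni (mem_inter.2 ⟨hi, h⟩)
        by_contra hv
        exact hiC (hNC (mem_filter.2 ⟨hxS hi, hv⟩))
      simp only [h2]
      exact h1
  have hkey : ∀ x ∈ X, ∀ i (h : i ∈ P), σ.f (kf i h) x =
      σ.f (kf i h) (x ∩ C) + if i ∈ x then σ.c i (kf i h) else 0 := by
    intro x hx i h
    obtain ⟨hxS, -, -⟩ := hX x hx
    have hPP := h
    rw [hP] at hPP
    have hiS : i ∈ σ.S := (mem_sdiff.1 hPP).1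
    have hiC : i ∉ C := (mem_sdiff.1 hPP).2
    unfold Sys.f
    rw [add_assoc]
    congr 1
    rw [← sum_inter_add_sum_sdiff x C]
    congr 1
    have hz : ∀ j ∈ x \ C, j ≠ i → σ.c j (kf i h) = 0 := by
      intro j hj hji
      by_contra hv
      exact hji (hN' _ (hkK i h) j i (hxS (mem_sdiff.1 hj).1) (mem_sdiff.1 hj).2 hv hiS hiC
        (hcne i h))
    split_ifs with hix
    · exact sum_eq_single_of_mem i (mem_sdiff.2 ⟨hix, hiC⟩) hz
    · refine sum_eq_zero fun j hj => hz j hj ?_
      rintro rfl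
      exact hix (mem_sdiff.1 hj).1
  have hdet : ∀ x ∈ X, ∀ x' ∈ X, x ∩ C = x' ∩ C → ∀ i ∈ P, i ∈ x → i ∉ x' → Free i (x ∩ C) := by
    intro x hx x' hx' hxx i h hix hix'
    refine ⟨h, ?_⟩
    have h1 := hkey x hx i h
    have h2 := hkey x' hx' i h
    rw [if_pos hix] at h1
    rw [if_neg hix', add_zero, ← hxx] at h2
    have h3 := (hX x hx).2.2 (kf i h) (hkK i h) (filter_subset _ _)
    have h4 := (hX x' hx').2.2 (kf i h) (hkK i h) (filter_subset _ _)
    rw [h1] at h3
    rw [h2] at h4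
    have h5 := hcne i h
    rcases h4 with h4 | h4
    · left
      refine ⟨h4, ?_⟩
      rw [h4, zero_add] at h3
      rcases h3 with h3 | h3
      · exact absurd h3 h5
      · exact h3
    · right
      refine ⟨h4, ?_⟩
      rw [h4] at h3
      rcases h3 with h3 | h3
      · linarith
      · exact absurd (by linarith) h5
  have hfib : ∀ y ∈ Y, (X.filter (fun x => x ∩ C = y)).card ≤ 2 ^ (Fr y).card := by
    intro y _
    rw [← card_powerset]
    refine card_le_card_of_injOn (fun x => x ∩ Fr y) (fun x _ => ?_) ?_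
    · simp only [coe_powerset, Set.mem_preimage, Set.mem_powerset_iff, coe_subset]
      exact inter_subset_right
    · intro x hx x' hx' hxx
      simp only [coe_filter, Set.mem_setOf_eq] at hx hx'
      have hxx' : x ∩ Fr y = x' ∩ Fr y := hxx
      -- symmetric argument
      have aux : ∀ a ∈ X, ∀ b ∈ X, a ∩ C = y → b ∩ C = y → a ∩ Fr y = b ∩ Fr y → a ⊆ b := by
        intro a ha b hb hay hby hab i hi
        by_contra hib
        have hiS : i ∈ σ.S := (hX a ha).1 hi
        have hiC : i ∉ C := by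
          intro hiC
          have : i ∈ b ∩ C := by rw [hby, ← hay]; exact mem_inter.2 ⟨hi, hiC⟩
          exact hib (mem_inter.1 this).1
        have hiP : i ∈ P := by rw [hP]; exact mem_sdiff.2 ⟨hiS, hiC⟩
        have hfree := hdet a ha b hb (hay.trans hby.symm) i hiP hi hib
        rw [hay] at hfree
        have : i ∈ b ∩ Fr y := by
          rw [← hab]
          exact mem_inter.2 ⟨hi, mem_filter.2 ⟨hiP, hfree⟩⟩
        exact hib (mem_inter.1 this).1
      exact Subset.antisymm (aux x hx.1 x' hx'.1 hx.2 hx'.2 hxx')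
        (aux x' hx'.1 x hx.1 hx'.2 hx.2 hxx'.symm)
  have hXle : X.card ≤ ∑ y ∈ Y, 2 ^ (Fr y).card := by
    rw [card_eq_sum_card_image (fun x => x ∩ C) X]
    exact sum_le_sum hfib
  have hYM : Y.card ≤ M := hM Y hYgood
  have hYi : ∀ i ∈ P, 3 * (Y.filter (fun y => Free i y)).card ≤ 2 * M := by
    intro i h
    have hgood : ∀ Z ⊆ Y, σ.Good C Z := fun Z hZ x hx => hYgood x (hZ hx)
    by_cases hc1 : σ.c i (kf i h) = 1
    · refine hM2 (fun j => σ.c j (kf i h)) (-σ.w (kf i h)) _ (hk1 i h hc1)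
        (hgood _ (filter_subset _ _)) ?_
      intro x hx
      obtain ⟨_, h', hF⟩ := mem_filter.1 hx
      rcases hF with hF | hF
      · have := hF.1
        unfold Sys.f at this
        linarith
      · have := hF.2
        rw [hc1] at this
        norm_num at this
    · by_cases hc2 : σ.c i (kf i h) = -1
      · refine hM2 (fun j => σ.c j (kf i h)) (1 - σ.w (kf i h)) _ (hk2 i h hc2)
          (hgood _ (filter_subset _ _)) ?_
        intro x hx
        obtain ⟨_, h', hF⟩ := mem_filter.1 hx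
        rcases hF with hF | hF
        · exact absurd hF.2 hc1
        · have := hF.1
          unfold Sys.f at this
          linarith
      · have : Y.filter (fun y => Free i y) = ∅ := by
          refine filter_eq_empty_iff.2 fun y _ hF => ?_
          obtain ⟨h', hF⟩ := hF
          rcases hF with hF | hF
          · exact hc1 hF.2
          · exact hc2 hF.2
        rw [this]
        simp
  -- double counting
  have hdc : ∑ y ∈ Y, (Fr y).card = ∑ i ∈ P, (Y.filter (fun y => Free i y)).card := by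
    simp only [hFr, card_filter]
    exact sum_comm
  have hNle : 3 * ∑ y ∈ Y, (Fr y).card ≤ P.card * (2 * M) := by
    rw [hdc, mul_sum]
    calc ∑ i ∈ P, 3 * (Y.filter (fun y => Free i y)).card ≤ ∑ _i ∈ P, 2 * M := sum_le_sum hYi
      _ = P.card * (2 * M) := by rw [sum_const, smul_eq_mul]
  rcases Nat.eq_zero_or_pos P.card with hp | hp
  · have hPe : P = ∅ := card_eq_zero.1 hp
    have h1 : ∀ y ∈ Y, 2 ^ (Fr y).card = 1 := by
      intro y _
      have : Fr y = ∅ := by simp only [hFr, hPe, filter_empty]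
      rw [this]; simp
    rw [sum_congr rfl h1] at hXle
    simp only [sum_const, smul_eq_mul, mul_one] at hXle
    rw [hp]
    simp only [pow_zero]
    omega
  · refine final_num X.card (∑ y ∈ Y, 2 ^ (Fr y).card) P.card (2 ^ P.card)
      (∑ y ∈ Y, (Fr y).card) Y.card M Nat.one_le_two_pow hXle ?_ hNle hYM hp
    have h1 : ∀ y ∈ Y, P.card * 2 ^ (Fr y).card + (Fr y).card ≤
        (Fr y).card * 2 ^ P.card + P.card := fun y _ =>
      conv _ _ (card_le_card (filter_subset _ _))
    have h2 := sum_le_sum h1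
    rw [sum_add_distrib, sum_add_distrib, ← mul_sum, ← sum_mul, sum_const, smul_eq_mul] at h2
    rw [mul_comm P.card Y.card]
    exact h2

end Pool.Agent.W494.AHC
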